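import Mathlib
import Pool.Agent.TAvg.GuessAvg

/-!
# Monotone languages in POLYLOGSPACE which are hard on average for nondeterministic circuits

The model are nondeterministic circuits; a word is accepted with `w` zeros if it has an accepting
proof tree with at most `w` negated variables. For `w = n` this is no restriction, and `n` guess bits
suffice for every language with monotone slices, even with `w = 0`.
-/

set_option autoImplicit false

namespace Pool.Agent.Results.MP_d19090_lc.FewGuesses

open Pool.Agent.FewNeg Pool.Agent.FewG Pool.Agent.TAvg

open Classical in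
/-- For every `c` there are a language `L` in POLYLOGSPACE, with monotone slices, and a constant `C`
such that for `s ≤ 2 ^ (log n) ^ c` there is a probability distribution `D` on the words of length `n`
in `L` with this property: every nondeterministic circuit with `s` gates and `g` guess bits, with free
functions of the guess bits and of the variables in `S`, which accepts no word outside of `L`, accepts
with at most `w` zeros with probability at most
`2 ^ (g + w * (log n + 1) + |S| + 2)` divided by
`2 ^ (n / (C * (log log n + 1) * (log s + 1) ^ 8))`. -/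
theorem result (c : ℕ) : ∃ L : Set (List Bool), Pool.Agent.BookPL.InPL Bool L ∧
    (∀ n : ℕ, Monotone (slice L n)) ∧
    ∃ C : ℕ, 0 < C ∧ ∀ (n : ℕ) (S : Finset (Fin n)) (s : ℕ),
      s ≤ 2 ^ Nat.log 2 n ^ c → ∃ D : (Fin n → Bool) → ℝ, (∀ x, 0 ≤ D x) ∧ ∑ x, D x = 1 ∧
        (∀ x, D x ≠ 0 → slice L n x = true) ∧
        ∀ (g w : ℕ) (K : NF (Fin n) (Fin g → Bool)), NSize S s K → NSound (slice L n) K →
          (∑ x ∈ Finset.univ.filter (fun x => NAcc w K x), D x) *
            2 ^ (n / (C * (Nat.log 2 (Nat.log 2 n) + 1) * (Nat.log 2 s + 1) ^ 8)) ≤
              2 ^ (g + w * (Nat.log 2 n + 1) + S.card + 2) :=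
  ⟨coL (LTB (c + 8)), inPL_coL (inPL_LTB _), fun n => coL_monotone (LTB_monotone _ n),
    nltb_avg c⟩

end Pool.Agent.Results.MP_d19090_lc.FewGuesses
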