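import Pool.Agent.Bfly.Fin

/-!
# Small space algorithms make wrong queries at an almost maximal number of cells

Every node of a stack of `H` butterflies with `2 ^ μ` nodes in every layer carries the table of a
function of two arguments with values in a set of `k` elements; the nodes are evaluated from the
bottom to the top. The input has `n = μ * H * 2 ^ μ * k ^ 2` cells, and the problem is in P. A
nondeterministic branching program with `2 ^ s` states is a nonuniform nondeterministic algorithm
of space `s`. A query is wrong if it reads the table of a node at a pair which is not the pair of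
the values of the two nodes below it. The programs without wrong queries are the thrifty programs,
and the bound `n` on the number of cells with wrong queries is no restriction.
-/

set_option autoImplicit false

namespace Pool.Agent.Results.MP_d19090_lc.FewWrongQueries

open Pool.Agent.Bfly

/-- Let a nondeterministic branching program `M` with at most `2 ^ s` states accept exactly the
inputs for which all nodes of the top layer have the value `z'`, and let `k` be more than
`48 * μ * H`. If `M` has less than `2 ^ (H - 1)` states, or an accepting computation of length less
than `2 ^ (H - 1)` for every accepted input, and if no accepting computation has wrong queries at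
more than `w` cells, then `2 ^ μ ≤ 16 * s + 24 * w * (log₂ n + 1)`, where `n` is the number of cells
of the input. For `H = μ ^ c + 1` and `k = 48 * μ * H + 1` this means `n ≤ (s + w) * μ ^ C`, see
`Pool.Agent.Bfly.bound_asy`. -/
theorem result (μ H k : ℕ) (hμ : 2 ≤ μ) (hH : 1 ≤ H) (z z' : Fin k) (hz : z ≠ z')
    (hk : 48 * (μ * H) < k) {Q : Type} [Fintype Q] (M : NBP (Node μ (μ * H)) (Fin k) Q)
    (hM : ∀ f, (∃ L, M.Acc f L) ↔ ∀ x, value z f (μ * H) x = z')
    (s w : ℕ) (hs : Fintype.card Q ≤ 2 ^ s)
    (hT : Fintype.card Q < 2 ^ (H - 1) ∨
      ∀ f, (∀ x, value z f (μ * H) x = z') → ∃ L, M.Acc f L ∧ L.length < 2 ^ (H - 1))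
    (hw : ∀ f L, M.Acc f L → (wrong z f L).ncard ≤ w) :
    2 ^ μ ≤ 16 * s + 24 * w * (Nat.log 2 (μ * H * 2 ^ μ * k ^ 2) + 1) :=
  bound μ H k hμ hH z z' hz hk M hM s w hs hT hw

end Pool.Agent.Results.MP_d19090_lc.FewWrongQueries
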